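import Pool.Agent.Run7.h795.RV.SelDens
import Pool.Agent.Run7.h795.RV.SelEnds

/-!
# The Selmer group conjecture along sparse families of vectors of residues

(After `Pool.Agent.N323.TH.Main` of helper323.)
-/

set_option autoImplicit false
set_option linter.all false

open scoped Classical

namespace Run7.h795.RV.Sel

open Polynomial NumberField IsDedekindDomain Pool.Agent.Y713 Pool.Agent.R431.SG
open Run7.h795.RV

variable {k : Type} [Field k] [NumberField k] {r : ℕ} (B : Module.Basis (Fin r) ℤ (𝓞 k))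

theorem exists_int {ℓ : ℕ} (hℓ : ℓ.Prime) {ζ : k} (hζ : IsPrimitiveRoot ζ ℓ) : ∃ ζ' : 𝓞 k, IsPrimitiveRoot ζ' ℓ := by
  have hint : IsIntegral ℤ ζ := hζ.isIntegral hℓ.pos
  refine ⟨⟨ζ, hint⟩, ?_⟩
  refine IsPrimitiveRoot.of_map_of_injective (f := algebraMap (𝓞 k) k) ?_
    (FaithfulSMul.algebraMap_injective _ _)
  exact hζ

/-- the first family -/
theorem curves_rare {β : ℝ} (hβ : 0 < β) {ℓ : ℕ} (hℓ : ℓ.Prime) {ζ : k} (hζ : IsPrimitiveRoot ζ ℓ)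
    {N n : ℕ} (hN : ¬ ℓ ∣ N) (hn : 4 ≤ n) :
    Rare β (fun v : (Fin (N + 1) × Fin (n + 1)) × Fin r → ℤ => ¬ Jac.ShaPrimaryTrivial ℓ
      (C (algebraMap k[X] (RatFunc k) (∑ j : Fin (n + 1), C (algebraMap (𝓞 k) k (cv B v (0, j))) * X ^ (j : ℕ))) *
      ∏ i : Fin N, (X - C (algebraMap k[X] (RatFunc k)
        (∑ j : Fin (n + 1), C (algebraMap (𝓞 k) k (cv B v (i.succ, j))) * X ^ (j : ℕ))))) k[X]) := by
  obtain ⟨m, rfl⟩ : ∃ m, n = m + 2 := ⟨n - 2, by omega⟩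
  obtain ⟨ζ', hζ'⟩ := exists_int hℓ hζ
  have hS : ∀ S : Option (Option ((Fin N × Fin N) ⊕ (Fin N × Fin N → Fin ℓ))),
      Rare β (BadV B 0 (fun p _ _ => ObsL ℓ N m S p)) := by
    intro S
    exact bad_rare' B hβ (δ := 1 / (2048 * ((m + 2 : ℕ) : ℝ) ^ 2)) (by positivity)
      (1600 + (4 * N + 6) + 2 * (N * N) + ℓ + 1) (fun p _ _ => ObsL ℓ N m S p)
      (fun p _ σ hp => card_ObsL hℓ hζ' (by omega) S p σ hp)
  refine (rare_iUnion _ hS).mono ?_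
  intro v hnot
  by_contra hcon
  apply hnot
  refine curves_end hℓ hζ hN (by omega) _ ?_
  intro S
  by_contra hno
  apply hcon
  refine ⟨S, ?_⟩
  intro p _ σ hmem
  exact hno ⟨p, _, σ, hmem⟩

/-- the second family, with all twists by constants -/
theorem monic_rare {β : ℝ} (hβ : 0 < β) {ℓ : ℕ} (hℓ : ℓ.Prime) {ζ : k} (hζ : IsPrimitiveRoot ζ ℓ)
    {N n : ℕ} (hN2 : 2 ≤ N) (hN : ¬ ℓ ∣ N + 1) (hn : 4 ≤ n) :
    Rare β (fun v : (Fin (N + 1) × Fin (n + 1)) × Fin r → ℤ => ¬ ∀ δ : k, δ ≠ 0 → Jac.ShaPrimaryTrivial ℓ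
      (C (algebraMap k[X] (RatFunc k) (C δ)) *
      ∏ i : Fin (N + 1), (X - C (algebraMap k[X] (RatFunc k)
        (∑ j : Fin (n + 1), C (algebraMap (𝓞 k) k (cv B v (i, j))) * X ^ (j : ℕ))))) k[X]) := by
  obtain ⟨m, rfl⟩ : ∃ m, n = m + 2 := ⟨n - 2, by omega⟩
  obtain ⟨ζ', hζ'⟩ := exists_int hℓ hζ
  have hS : ∀ S : Fin N × Option (Option ((Fin N × Fin N) ⊕ (Fin N × Fin N → Fin ℓ))),
      Rare β (BadV B 0 (fun p _ _ => {c | trn S.1 c ∈ ObsL ℓ N m S.2 p})) := by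
    intro S
    refine bad_rare' B hβ (δ := 1 / (2048 * ((m + 2 : ℕ) : ℝ) ^ 2)) (by positivity)
      (1600 + (4 * N + 6) + 2 * (N * N) + ℓ + 1)
      (fun p _ _ => {c | trn S.1 c ∈ ObsL ℓ N m S.2 p}) ?_
    intro p _ σ hp
    rw [card_trn]
    exact card_ObsL hℓ hζ' (by omega) S.2 p σ hp
  refine (rare_iUnion _ hS).mono ?_
  intro v hnot
  by_contra hcon
  apply hnot
  refine monic_end hℓ hζ hN2 hN (by omega) _ ?_
  intro i S
  by_contra hno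
  apply hcon
  refine ⟨(i, S), ?_⟩
  intro p _ σ hmem
  exact hno ⟨p, _, σ, hmem⟩

/-- the three kinds of obstructions for the twists -/
def ObT (ℓ m : ℕ) (κ : Fin 3) (p : ℕ) [Fact p.Prime] (g : (ZMod p)[X]) :
    Set (Fin (m + 3) → ZMod p) :=
  if κ = 0 then {c | (pol c).natDegree = m + 2 ∧ Irreducible (pol c)}
  else if κ = 1 then {c | ∃ (r : ZMod p) (g : (ZMod p)[X]), pol c = (X - C r) * g ∧
          g.natDegree = m + 1 ∧ Irreducible g}
  else {c | PObs ℓ g c}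

/-- the twists -/
theorem twists_rare {β : ℝ} (hβ : 0 < β) {ℓ : ℕ} (hℓ : ℓ.Prime) {ζ : k} (hζ : IsPrimitiveRoot ζ ℓ)
    {G : (RatFunc k)[X]} (hs : G.Splits) (hsep : G.Separable) (hdeg : ¬ ℓ ∣ G.natDegree)
    {n : ℕ} (hn : 2 ≤ n) (hn3 : n = 2 → ℓ ≠ 2) :
    Rare β (fun v : Fin (n + 1) × Fin r → ℤ => ¬ Jac.ShaPrimaryTrivial ℓ
      (C (algebraMap k[X] (RatFunc k) (∑ j : Fin (n + 1), C (algebraMap (𝓞 k) k (cv B v j)) * X ^ (j : ℕ))) * G)
        k[X]) := by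
  obtain ⟨m, rfl⟩ : ∃ m, n = m + 2 := ⟨n - 2, by omega⟩
  obtain ⟨ζ', hζ'⟩ := exists_int hℓ hζ
  obtain ⟨s, hs1, hs2⟩ := twists_end hℓ hζ hs hsep hdeg
  have hδ0 : (0 : ℝ) < 1 / (32 * (m + 2) ^ 2) := by positivity
  have hA : Rare β (BadV B 0 (fun p _ g => ObT ℓ m 0 p g)) := by
    refine bad_rare' B hβ hδ0 2 (fun p _ g => ObT ℓ m 0 p g) ?_
    intro p _ σ hp
    rw [Fintype.card_fin]
    have h1 := card_irr2 p (n := m + 2) (by omega)
    refine le_trans ?_ h1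
    exact mul_le_mul_of_nonneg_right (d3 m) (by positivity)
  have hB : Rare β (fun v => 1 ≤ m ∧ BadV B 0 (fun p _ g => ObT ℓ m 1 p g) v) := by
    by_cases hm : 1 ≤ m
    · have h0 : Rare β (BadV B 0 (fun p _ g => ObT ℓ m 1 p g)) := by
        refine bad_rare' B hβ hδ0 2 (fun p _ g => ObT ℓ m 1 p g) ?_
        intro p _ σ hp
        rw [Fintype.card_fin]
        have h1 := card_fac2 p (m := m + 1) (by omega)
        refine le_trans ?_ h1
        exact mul_le_mul_of_nonneg_right (d2 m) (by positivity)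
      exact h0.mono fun v hv => hv.2
    · exact rare_false.mono fun v hv => hm hv.1
  have hC : ∀ f ∈ s, Rare β (BadV B f (fun p _ g => ObT ℓ m 2 p g)) := by
    intro f hf
    obtain ⟨k', _, _, ι, p0, hk'⟩ := hs1 f hf
    obtain ⟨P0, hP0⟩ := card_PObs hℓ f.natDegree
    refine bad_rare B hβ f ι hδ0 (p0 + P0 + ℓ + 1) (fun p _ g => ObT ℓ m 2 p g) ?_
    intro p _ σ hp
    obtain ⟨h1, h2⟩ := hk' p σ (by omega)
    rw [Fintype.card_fin]
    exact hP0 p (by omega) (ell_dvd hℓ hζ' (σ.comp ι) (by omega)) _ h1 natDegree_map_le h2 m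
  refine ((hA.or hB).or (rare_exists s _ hC)).mono ?_
  intro v hnot
  by_contra hcon
  rw [not_or, not_or] at hcon
  obtain ⟨⟨hA', hB'⟩, hC'⟩ := hcon
  apply hnot
  refine hs2 m hn3 _ ?_ ?_ ?_
  · by_contra hno
    apply hA'
    intro p _ σ hmem
    exact hno ⟨p, _, σ, hmem⟩
  · intro hm
    by_contra hno
    apply hB'
    refine ⟨hm, ?_⟩
    intro p _ σ hmem
    obtain ⟨r, g, h1⟩ := hmem
    exact hno ⟨p, _, σ, r, g, h1⟩
  · intro f hf
    by_contra hno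
    apply hC'
    refine ⟨f, hf, ?_⟩
    intro p _ σ hmem
    exact hno ⟨p, _, σ, hmem⟩

end Run7.h795.RV.Sel
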