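import Pool.Agent.Run7.h795.RV.Core
import Pool.Agent.Run7.h823.WF.C

/-!
Large prime divisors of the values of a polynomial at the members of sparse families of vectors of residues.
-/

set_option autoImplicit false

namespace Run7.h795.RV

open Finset Filter MvPolynomial
open Pool.Agent.Run7.h823.WF (Flat transferG)
open Pool.Agent.N666.TM (Well)
open Pool.Agent.N141.TS (growth)

theorem Big_mono {σ σ' : ℝ} {a b : ℤ} (h : σ ≤ σ') (hb : Big σ a b) : Big σ' a b := by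
  obtain ⟨h1, p, hp, h2, h3, H, h4, h5, h6, h7⟩ := hb
  refine ⟨h1, p, hp, h2, h3, H, h4, h5, h6, h7.trans ?_⟩
  exact mul_le_mul_of_nonneg_right h (Real.log_nonneg (by exact_mod_cast hp.one_lt.le))

/-- most members of a family of vectors of residues with small Fourier coefficients -/
theorem residues {r : ℕ} {A D : MvPolynomial (Fin r) ℤ} (hD : D ≠ 0) (hM : MeanPoles A D) {β : ℝ} (hβ : 0 < β)
    (B : ℕ) (hB : 1 ≤ B) (ε : ℝ) (hε : 0 < ε) :
    ∃ σ : ℝ, 0 ≤ σ ∧ ∃ q₀ : ℕ, ∀ (τ : Type) (q : ℕ) [NeZero q], q₀ ≤ q → ∀ (s : Finset τ) (y : τ → Fin r → ZMod q)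
      (c₀ : Fin r → ℤ), Flat q ((q : ℝ) ^ (-β)) s y →
      (∀ i ∈ s, ∀ j, |((c₀ j + ((y i j).val : ℕ) : ℤ) : ℝ)| ≤ (q : ℝ) ^ B) →
      ({i : τ | i ∈ s ∧ ¬ Big σ (eval (fun j => c₀ j + ((y i j).val : ℕ)) A)
        (eval (fun j => c₀ j + ((y i j).val : ℕ)) D)}.ncard : ℝ) ≤ ε * s.card := by
  obtain ⟨k, q₀, h⟩ := transferG (ι := Fin r) hβ (fun k _ v => Big k (eval v A) (eval v D))
    (fun k k' _ v hk h => Big_mono (by exact_mod_cast hk) h)
    (fun _ _ => ε) (fun _ _ => hε.le) (fun _ _ _ _ => le_rfl) (fun N v => ∀ j, |((v j : ℤ) : ℝ)| ≤ (N : ℝ) ^ B)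
    (fun q v hv j => by
      obtain ⟨h1, h2⟩ := hv j
      have h3 : (0 : ℝ) ≤ v j := by exact_mod_cast h1
      have h4 : ((v j : ℤ) : ℝ) ≤ q := by exact_mod_cast h2.le
      have hq : (1 : ℝ) ≤ q := by
        have : 1 ≤ q := by
          have : (0 : ℤ) < q := lt_of_le_of_lt h1 h2
          omega
        exact_mod_cast this
      rw [abs_of_nonneg h3]
      exact h4.trans (le_self_pow₀ hq (by omega)))
    (fun S x κ hκ hw hs => by
      obtain ⟨CA, mA, hCA, hA⟩ := growth A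
      obtain ⟨CD, mD, hCD, hDg⟩ := growth D
      obtain ⟨σ, hσ, N₀, h1⟩ := core hD hM hκ hw (C := max CA CD) (m := B * max mA mD)
        (hCA.trans (le_max_left _ _)) (fun N hN n hn => by
          have hN1 : (1 : ℝ) ≤ N := by exact_mod_cast hN
          have hNB : (1 : ℝ) ≤ (N : ℝ) ^ B := one_le_pow₀ hN1
          have e1 := hA (x n) ((N : ℝ) ^ B) hNB (hs N n hn)
          have e2 := hDg (x n) ((N : ℝ) ^ B) hNB (hs N n hn)
          rw [pow_mul]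
          have hpow : ∀ m, (0 : ℝ) ≤ ((N : ℝ) ^ B) ^ m := fun m => by positivity
          constructor
          · refine e1.trans (mul_le_mul (le_max_left _ _) (pow_le_pow_right₀ hNB (le_max_left _ _)) (hpow _) ?_)
            linarith [le_max_left CA CD]
          · refine e2.trans (mul_le_mul (le_max_right _ _) (pow_le_pow_right₀ hNB (le_max_right _ _)) (hpow _) ?_)
            linarith [le_max_left CA CD]) ε hε
      obtain ⟨k, hk⟩ := exists_nat_ge σ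
      refine ⟨k, N₀, fun N hN => le_trans ?_ (h1 N hN)⟩
      have hsub : {n : ℕ | n ∈ S N ∧ ¬ Big k (eval (x n) A) (eval (x n) D)} ⊆
          {n : ℕ | n ∈ S N ∧ ¬ Big σ (eval (x n) A) (eval (x n) D)} :=
        fun n hn => ⟨hn.1, fun hb => hn.2 (Big_mono hk hb)⟩
      exact_mod_cast Set.ncard_le_ncard hsub ((Finset.finite_toSet (S N)).subset fun n hn => hn.1))
  exact ⟨k, Nat.cast_nonneg k, q₀, fun τ q _ hq s y c₀ hf hs => h τ q hq s y c₀ hf hs⟩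

/-- the size of the members -/
theorem size {r B q : ℕ} [NeZero q] (hq : 2 ≤ q) (c₀ : Fin r → ℤ) (hc : ∀ j, |(c₀ j : ℝ)| ≤ (q : ℝ) ^ B)
    (y : Fin r → ZMod q) (j : Fin r) : |((c₀ j + ((y j).val : ℕ) : ℤ) : ℝ)| ≤ (q : ℝ) ^ (B + 2) := by
  have h1 : ((y j).val : ℝ) ≤ q := by exact_mod_cast (ZMod.val_lt (y j)).le
  have h2 : (0 : ℝ) ≤ ((y j).val : ℝ) := Nat.cast_nonneg _
  have hq2 : (2 : ℝ) ≤ q := by exact_mod_cast hq
  have hq1 : (1 : ℝ) ≤ q := by linarith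
  have h3 : (q : ℝ) ≤ (q : ℝ) ^ (B + 1) := le_self_pow₀ hq1 (by omega)
  have h4 : (q : ℝ) ^ B ≤ (q : ℝ) ^ (B + 1) := pow_le_pow_right₀ hq1 (by omega)
  have h5 : (0 : ℝ) ≤ (q : ℝ) ^ (B + 1) := by positivity
  push_cast
  calc |(c₀ j : ℝ) + ((y j).val : ℝ)| ≤ |(c₀ j : ℝ)| + |((y j).val : ℝ)| := abs_add_le _ _
    _ ≤ (q : ℝ) ^ B + q := by rw [abs_of_nonneg h2]; exact add_le_add (hc j) h1
    _ ≤ (q : ℝ) ^ (B + 1) * 2 := by linarith
    _ ≤ (q : ℝ) ^ (B + 1) * q := mul_le_mul_of_nonneg_left hq2 h5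
    _ = (q : ℝ) ^ (B + 2) := by ring

theorem ncard_mono {τ : Type} {S : Finset τ} {P Q : τ → Prop} (h : ∀ n ∈ S, P n → Q n) :
    ({n : τ | n ∈ S ∧ P n}.ncard : ℝ) ≤ ({n : τ | n ∈ S ∧ Q n}.ncard : ℝ) := by
  have h1 : {n : τ | n ∈ S ∧ P n}.ncard ≤ {n : τ | n ∈ S ∧ Q n}.ncard :=
    Set.ncard_le_ncard (fun n hn => ⟨hn.1, h n hn.1 hn.2⟩)
      ((Finset.finite_toSet S).subset fun n hn => hn.1)
  exact_mod_cast h1

end Run7.h795.RV
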