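import Pool.Agent.Run7.h795.RV.Hit
import Pool.Agent.Run7.h795.RV.Rat
import Pool.Agent.TH783.CE.Thin

/-!
# Thin sets of number fields contain few members of sparse families of residues

(After `Pool.Agent.N455.PR.Null` of helper455.)
-/

set_option autoImplicit false

namespace Run7.h795.RV.Hit

open Polynomial Filter Topology
open Pool.Agent.N455.HT
open Pool.Agent.TH783.CE (Thin)
open Run7.h795.RV

/-- polynomials in one variable -/
noncomputable def e1 : ℤ[X] →+* MvPolynomial Unit ℤ :=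
  ((MvPolynomial.uniqueAlgEquiv ℤ Unit).symm : ℤ[X] ≃ₐ[ℤ] MvPolynomial Unit ℤ).toRingEquiv.toRingHom

theorem e1_bij : Function.Bijective e1 := (MvPolynomial.uniqueAlgEquiv ℤ Unit).symm.bijective

theorem ev_e1 (t : ℤ) : (ev (fun _ : Unit => t)).comp e1 = evalRingHom t := by
  refine Polynomial.ringHom_ext (fun n => ?_) ?_
  · have : ((ev (fun _ : Unit => t)).comp e1).comp C = (evalRingHom t).comp C :=
      RingHom.ext_int _ _
    exact RingHom.congr_fun this n
  · rw [RingHom.comp_apply]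
    have h : e1 X = MvPolynomial.X () := by
      unfold e1
      simp
    rw [h, ev_X]
    simp

theorem null_int {β : ℝ} (hβ : 0 < β)
    (F : ℤ[X][X]) (hF : F.Monic) (hroot : ∀ g, F.eval g ≠ 0) :
    Rare β (fun v : Unit → ℤ => ∃ a : ℤ, (F.map (evalRingHom (v ()))).eval a = 0) := by
  have h := hit_monic hβ _ (F.map e1) rfl (hF.map _) (by
    intro a ha
    obtain ⟨b, rfl⟩ := e1_bij.2 a
    rw [eval_map_apply] at ha
    exact hroot b (e1_bij.1 (by rw [ha, map_zero])))
  refine h.mono ?_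
  rintro v ⟨a, ha⟩
  refine ⟨a, ?_⟩
  unfold IsRt
  have hv : v = fun _ : Unit => v () := rfl
  rw [Polynomial.map_map, hv, ev_e1]
  exact ha

theorem null_rat {β : ℝ} (hβ : 0 < β)
    (f : ℚ[X][X]) (hf : f.Monic) (hroot : ∀ g, f.eval g ≠ 0) :
    Rare β (fun v : Unit → ℤ => ∃ x : ℚ, f.evalEval ((v () : ℤ) : ℚ) x = 0) := by
  obtain ⟨F, hF, hFr, h⟩ := rat_to_int f hf hroot
  refine (null_int hβ F hF hFr).mono ?_
  rintro v ⟨x, hx⟩
  exact h (v ()) x hx

theorem null_val {β : ℝ} (hβ : 0 < β) (m : ℤ) : Rare β (fun v : Unit → ℤ => v () = m) := by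
  have h := zero_rare hβ (t := (MvPolynomial.X () - MvPolynomial.C m : MvPolynomial Unit ℤ)) (by
    intro h0
    have := congrArg (MvPolynomial.eval fun _ => m + 1) h0
    simp at this)
  refine h.mono ?_
  intro v hv
  show ev v (MvPolynomial.X () - MvPolynomial.C m) = 0
  rw [map_sub, ev_X, hv]
  unfold ev
  simp

/-- **Thin sets contain few members.** -/
theorem thin_rare {β : ℝ} (hβ : 0 < β) (K : Type) [Field K] [NumberField K] (D : Set K) (hD : Thin D) :
    Rare β (fun v : Unit → ℤ => ((v () : ℤ) : K) ∈ D) := by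
  classical
  obtain ⟨A, hA, G, hG, hroot, hcov⟩ := hD
  obtain ⟨H, hH, hHr, F, hF, hF'⟩ := nf_to_rat K G hG hroot
  have hA' : {m : ℤ | (m : K) ∈ A}.Finite := hA.preimage Int.cast_injective.injOn
  refine ((rare_exists (hA'.union hF).toFinset (fun (m : ℤ) (v : Unit → ℤ) => v () = m)
    fun m _ => null_val hβ m).or (null_rat hβ H hH hHr)).mono ?_
  intro v hvD
  rcases hcov _ hvD with h | ⟨x, hx⟩
  · exact Or.inl ⟨v (), (Set.Finite.mem_toFinset _).2 (Or.inl h), rfl⟩
  · rcases hF' (v ()) x hx with h | ⟨y, hy⟩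
    · exact Or.inl ⟨v (), (Set.Finite.mem_toFinset _).2 (Or.inr h), rfl⟩
    · exact Or.inr ⟨y, hy⟩

end Run7.h795.RV.Hit
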