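import Pool.Agent.Run7.h795.RV.Res
import Pool.Agent.N365.SM.E

/-!
Large primes in the denominators of rational functions at the members of sparse families of vectors of residues, and the
Shimura maps. (The theorem `one` is a copy of `Pool.Agent.N628.BS.one` of helper628, with fewer imports.)
-/

set_option autoImplicit false

namespace Run7.h795.RV

open Finset Filter MvPolynomial
open Pool.Agent.Y722.HS (red)
open Pool.Agent.Run7.h823.WF (Flat transferG)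
open Pool.Agent.N666.TM (Well)
open Pool.Agent.N141.TS (growth)
open Pool.Agent.N365.SM (Sh shimura)

/-- one large pole is enough -/
theorem one {θ : ℝ} (hθ : 0 < θ) (m : ℕ) : ∃ N₀ : ℕ, ∀ N : ℕ, N₀ ≤ N → 1 ≤ N → ∀ x y : ℤ, y ≠ 0 →
    (∃ p : ℕ, p.Prime ∧ (N : ℝ) ^ θ ≤ p ∧ (p : ℤ) ∣ y ∧ ¬ (p : ℤ) ∣ x) →
    |(x : ℝ)| ≤ (N : ℝ) ^ (m + 1) → |(y : ℝ)| ≤ (N : ℝ) ^ (m + 1) →
    Sh (11 / 2 + (m + 1) / (6 * θ)) ((x : ℚ) / y) := by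
  obtain ⟨B₀, hB₀⟩ := shimura m (ε := 8 * θ) (by positivity)
  refine ⟨B₀, fun N hN hN1 x y hy hp hx hy' => ?_⟩
  obtain ⟨p, hp, hpN, hpy, hpx⟩ := hp
  have e1 : 8 * θ / 8 = θ := by ring
  have e2 : 11 / 2 + 4 * ((m : ℝ) + 1) / (3 * (8 * θ)) = 11 / 2 + (m + 1) / (6 * θ) := by
    field_simp
    ring
  have h := hB₀ N hN hN1 x y ⟨hy, {p}, ?_, ?_⟩ hx hy'
  · rw [e2] at h
    exact h
  · intro q hq
    rw [mem_singleton] at hq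
    subst hq
    exact ⟨hp, hpy, hpx⟩
  · rw [prod_singleton, e1]
    exact hpN

/-- a large pole -/
def Pole {r : ℕ} (A D : MvPolynomial (Fin r) ℤ) (θ : ℝ) (N : ℕ) (v : Fin r → ℤ) : Prop :=
  eval v D ≠ 0 ∧ ∃ p : ℕ, p.Prime ∧ (N : ℝ) ^ θ ≤ p ∧ (p : ℤ) ∣ eval v D ∧ ¬ (p : ℤ) ∣ eval v A

/-- a large pole at most members of a family of vectors of residues -/
theorem poles_res {r : ℕ} {A D : MvPolynomial (Fin r) ℤ} (hD : D ≠ 0) (hM : MeanPoles A D) {β : ℝ} (hβ : 0 < β)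
    (ε : ℝ) (hε : 0 < ε) :
    ∃ θ : ℝ, 0 < θ ∧ ∃ q₀ : ℕ, ∀ (τ : Type) (q : ℕ) [NeZero q], q₀ ≤ q → ∀ (s : Finset τ) (y : τ → Fin r → ZMod q)
      (c₀ : Fin r → ℤ), Flat q ((q : ℝ) ^ (-β)) s y →
      ({i : τ | i ∈ s ∧ ¬ Pole A D θ q (fun j => c₀ j + ((y i j).val : ℕ))}.ncard : ℝ) ≤ ε * s.card := by
  obtain ⟨k, q₀, h⟩ := transferG (ι := Fin r) hβ (fun k N v => 1 ≤ N → Pole A D (1 / (k + 1)) N v)
    (fun k k' N v hk h hN => by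
      obtain ⟨h0, p, h1, h2, h3⟩ := h hN
      refine ⟨h0, p, h1, le_trans (Real.rpow_le_rpow_of_exponent_le (by exact_mod_cast hN) ?_) h2, h3⟩
      have h5 : (k : ℝ) ≤ k' := by exact_mod_cast hk
      exact one_div_le_one_div_of_le (by positivity) (by linarith))
    (fun _ _ => ε) (fun _ _ => hε.le) (fun _ _ _ _ => le_rfl) (fun _ _ => True) (fun _ _ _ => trivial)
    (fun S x κ hκ hw _ => by
      obtain ⟨θ, hθ, N₀, h1⟩ := core0 hD (Ω := ZP A D) hM hκ hw ε hε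
      obtain ⟨k, hk⟩ := exists_nat_one_div_lt hθ
      refine ⟨k, N₀, fun N hN => le_trans ?_ (h1 N hN)⟩
      refine ncard_mono fun n _ hn hq => hn fun hN1 => ?_
      obtain ⟨h0, p, h1, h2, h3⟩ := hq
      have hpZ' : aeval (fun i => (x n i : ZMod p)) D = 0 ∧ aeval (fun i => (x n i : ZMod p)) A ≠ 0 := h3
      rw [Pool.Agent.N141.TS.eval_red, Pool.Agent.N141.TS.eval_red, ZMod.intCast_zmod_eq_zero_iff_dvd, Ne,
        ZMod.intCast_zmod_eq_zero_iff_dvd] at hpZ'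
      exact ⟨h0, p, h1, le_trans (Real.rpow_le_rpow_of_exponent_le (by exact_mod_cast hN1) hk.le) h2, hpZ'.1, hpZ'.2⟩)
  refine ⟨1 / (k + 1), by positivity, q₀, fun τ q _ hq s y c₀ hf => le_trans ?_ (h τ q hq s y c₀ hf fun _ _ => trivial)⟩
  exact ncard_mono fun n _ hn hq' => hn (hq' (Nat.one_le_iff_ne_zero.2 (NeZero.ne q)))

/-- the Shimura maps -/
theorem shimura_res {r : ℕ} {A D : MvPolynomial (Fin r) ℤ} (hD : D ≠ 0) (hM : MeanPoles A D) {β : ℝ} (hβ : 0 < β)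
    (B : ℕ) (ε : ℝ) (hε : 0 < ε) :
    ∃ (κ : ℝ) (q₀ : ℕ), ∀ (τ : Type) (q : ℕ) [NeZero q], q₀ ≤ q → ∀ (s : Finset τ) (y : τ → Fin r → ZMod q)
      (c₀ : Fin r → ℤ), Flat q ((q : ℝ) ^ (-β)) s y → (∀ j, |(c₀ j : ℝ)| ≤ (q : ℝ) ^ B) →
      ({i : τ | i ∈ s ∧ ¬ (eval (fun j => c₀ j + ((y i j).val : ℕ)) D ≠ 0 ∧
        Sh κ ((eval (fun j => c₀ j + ((y i j).val : ℕ)) A : ℤ) / (eval (fun j => c₀ j + ((y i j).val : ℕ)) D : ℤ)))}.ncard : ℝ)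
        ≤ ε * s.card := by
  obtain ⟨θ, hθ, q₁, h⟩ := poles_res hD hM hβ ε hε
  obtain ⟨CA, mA, hCA, hA⟩ := growth A
  obtain ⟨CD, mD, hCD, hDg⟩ := growth D
  obtain ⟨m, hm⟩ : ∃ m : ℕ, m = (B + 2) * max mA mD := ⟨_, rfl⟩
  obtain ⟨q₂, h2⟩ := one hθ m
  refine ⟨11 / 2 + (m + 1) / (6 * θ), q₁ + q₂ + ⌈CA⌉₊ + ⌈CD⌉₊ + 2, fun τ q _ hq s y c₀ hf hc => ?_⟩
  have hqq : q₁ ≤ q := by omega
  have hfin := h τ q hqq s y c₀ hf
  refine le_trans (ncard_mono (Q := fun i => ¬ Pole A D θ q (fun j => c₀ j + ((y i j).val : ℕ))) ?_) hfin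
  intro i _ hn hP
  refine hn ?_
  obtain ⟨h0, p, hp, hpq, hp1, hp2⟩ := hP
  have hq2 : 2 ≤ q := by omega
  have hq1 : (1 : ℝ) ≤ q := by exact_mod_cast (by omega : 1 ≤ q)
  have hqB : (1 : ℝ) ≤ (q : ℝ) ^ (B + 2) := one_le_pow₀ hq1
  have hsz : ∀ j, |((c₀ j + ((y i j).val : ℕ) : ℤ) : ℝ)| ≤ (q : ℝ) ^ (B + 2) := fun j => size hq2 c₀ hc (y i) j
  have key : ∀ (C : ℝ) (k : ℕ), C ≤ q → 1 ≤ C → k ≤ max mA mD → C * ((q : ℝ) ^ (B + 2)) ^ k ≤ (q : ℝ) ^ (m + 1) := by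
    intro C k hC hC1 hk
    rw [← pow_mul]
    calc C * (q : ℝ) ^ ((B + 2) * k) ≤ q * (q : ℝ) ^ m :=
          mul_le_mul hC (pow_le_pow_right₀ hq1 (by rw [hm]; exact Nat.mul_le_mul_left _ hk)) (by positivity)
            (by linarith)
      _ = (q : ℝ) ^ (m + 1) := by ring
  have hCAq : CA ≤ q := (Nat.le_ceil CA).trans (by exact_mod_cast (by omega : ⌈CA⌉₊ ≤ q))
  have hCDq : CD ≤ q := (Nat.le_ceil CD).trans (by exact_mod_cast (by omega : ⌈CD⌉₊ ≤ q))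
  refine ⟨h0, h2 q (by omega) (by omega) _ _ h0 ⟨p, hp, hpq, hp1, hp2⟩ ?_ ?_⟩
  · exact (hA _ _ hqB hsz).trans (key CA mA hCAq hCA (le_max_left _ _))
  · exact (hDg _ _ hqB hsz).trans (key CD mD hCDq hCD (le_max_right _ _))

end Run7.h795.RV
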