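import Pool.Agent.N666.TM.Turan
import Pool.Agent.Erdos456.Mertens
import Pool.Agent.N141.TS.Alg

/-!
Large prime divisors of the values of a polynomial at the members of well distributed sequences. (Copy of the files `N141/TS/Core.lean`
and `N141/TS/Wei.lean` of the starting tree, with fewer imports.)
-/

set_option autoImplicit false

namespace Run7.h795.RV

open Finset Filter MvPolynomial Pool.Agent.N666.TM Pool.Agent.Y722.HS
open Pool.Agent.N141.TS (growth eval_red few_zeros wei)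

/-- the zeros of `D` modulo `p` that are not zeros of `A` -/
def ZP {r : ℕ} (A D : MvPolynomial (Fin r) ℤ) (p : ℕ) : Set (Fin r → ZMod p) :=
  {ρ | aeval ρ D = 0 ∧ aeval ρ A ≠ 0}

/-- the mean number of poles of `A / D` modulo the primes is positive -/
def MeanPoles {r : ℕ} (A D : MvPolynomial (Fin r) ℤ) : Prop :=
  ∃ δ C : ℝ, 0 < δ ∧ ∀ y x : ℕ, 3 ≤ y → y ≤ x →
    δ * (Real.log (Real.log x) - Real.log (Real.log y)) - C ≤
      ∑ p ∈ (Ioc y x).filter Nat.Prime, ((ZP A D p).ncard : ℝ) / (p : ℝ) ^ r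

/-- one large prime divisor of the second integer which does not divide the first -/
def Big (σ : ℝ) (a b : ℤ) : Prop :=
  b ≠ 0 ∧ ∃ p : ℕ, p.Prime ∧ (p : ℤ) ∣ b ∧ ¬ (p : ℤ) ∣ a ∧
    ∃ H : ℝ, 1 ≤ H ∧ |(a : ℝ)| ≤ H ∧ |(b : ℝ)| ≤ H ∧ 2 * Real.log H ≤ σ * Real.log p

/-- a mean over the primes -/
def MeanSet {r : ℕ} (Ω : ∀ p : ℕ, Set (Fin r → ZMod p)) : Prop :=
  ∃ δ C : ℝ, 0 < δ ∧ ∀ y x : ℕ, 3 ≤ y → y ≤ x →
    δ * (Real.log (Real.log x) - Real.log (Real.log y)) - C ≤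
      ∑ p ∈ (Ioc y x).filter Nat.Prime, ((Ω p).ncard : ℝ) / (p : ℝ) ^ r

/-- a local condition at a large prime holds for most members of a well distributed sequence -/
theorem core0 {r : ℕ} {D : MvPolynomial (Fin r) ℤ} (hD : D ≠ 0) {Ω : ∀ p : ℕ, Set (Fin r → ZMod p)}
    (hM : MeanSet Ω) {S : ℕ → Finset ℕ} {x : ℕ → Fin r → ℤ} {κ : ℝ} (hκ : 0 < κ)
    (hw : ∃ N₀ : ℕ, ∀ N : ℕ, N₀ ≤ N → ∀ H : ℕ, (H : ℝ) ≤ (N : ℝ) ^ κ → Well (S N) x H)
    (ε : ℝ) (hε : 0 < ε) : ∃ θ : ℝ, 0 < θ ∧ ∃ N₀ : ℕ, ∀ N : ℕ, N₀ ≤ N →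
      ({n : ℕ | n ∈ S N ∧ ¬ (eval (x n) D ≠ 0 ∧ ∃ p : ℕ, p.Prime ∧ (N : ℝ) ^ θ ≤ p ∧
        red p (x n) ∈ Ω p)}.ncard : ℝ) ≤ ε * (S N).card := by
  classical
  obtain ⟨δ, C₁, hδ, hmean⟩ := hM
  obtain ⟨N₁, hN₁⟩ := hw
  obtain ⟨p₀, hp₀⟩ := few_zeros hD
  -- a prime for the zeros of `D`
  obtain ⟨q, hq0, hqp⟩ := Nat.exists_infinite_primes (p₀ + ⌈8 * (D.totalDegree : ℝ) / ε⌉₊ + 1)
  have hqpos : (0 : ℝ) < q := by exact_mod_cast hqp.pos
  have hqd : dens {ρ : Fin r → ZMod q | aeval ρ D = 0} ≤ ε / 8 := by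
    have h1 := hp₀ q hqp (by omega)
    have h2 : 8 * (D.totalDegree : ℝ) / ε ≤ q :=
      (Nat.le_ceil _).trans (by exact_mod_cast (by omega : ⌈8 * (D.totalDegree : ℝ) / ε⌉₊ ≤ q))
    unfold Pool.Agent.N666.TM.dens
    rw [Fintype.card_fin]
    refine h1.trans ?_
    rw [div_le_iff₀ hqpos]
    rw [div_le_iff₀ hε] at h2
    linarith
  -- the parameter
  set τ : ℝ := Real.exp (-((8 / ε + |C₁|) / δ)) / 2 with hτ
  have hτ0 : 0 < τ := by positivity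
  have hτ1 : τ ≤ 1 / 2 := by
    rw [hτ]
    have : Real.exp (-((8 / ε + |C₁|) / δ)) ≤ 1 := by
      rw [Real.exp_le_one_iff]
      have : 0 ≤ (8 / ε + |C₁|) / δ := by positivity
      linarith
    linarith
  have hlogτ : Real.log (1 / (2 * τ)) = (8 / ε + |C₁|) / δ := by
    have : 2 * τ = Real.exp (-((8 / ε + |C₁|) / δ)) := by rw [hτ]; ring
    rw [this, one_div, ← Real.exp_neg, neg_neg, Real.log_exp]
  refine ⟨τ * κ / 2, by positivity, ?_⟩
  -- large `N`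
  have hlog := Real.tendsto_log_atTop.comp (tendsto_natCast_atTop_atTop (R := ℝ))
  have hpow : ∀ s : ℝ, 0 < s → Tendsto (fun N : ℕ => (N : ℝ) ^ s) atTop atTop := fun s hs =>
    (tendsto_rpow_atTop hs).comp tendsto_natCast_atTop_atTop
  have hev : ∀ᶠ N : ℕ in atTop, 1 ≤ N ∧ 4 * Real.log 2 / κ ≤ Real.log (N : ℝ) ∧
      4 ≤ (N : ℝ) ^ (τ * κ / 2) ∧ (q : ℝ) ≤ (N : ℝ) ^ κ - 1 ∧ 8 / ε ≤ (N : ℝ) ^ κ - 1 := by
    filter_upwards [eventually_ge_atTop 1,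
      hlog.eventually_ge_atTop (4 * Real.log 2 / κ),
      (hpow (τ * κ / 2) (by positivity)).eventually_ge_atTop 4,
      (hpow κ hκ).eventually_ge_atTop ((q : ℝ) + 1), (hpow κ hκ).eventually_ge_atTop (8 / ε + 1)]
      with N h1 h3 h4 h5 h6
    exact ⟨h1, h3, h4, by linarith, by linarith⟩
  obtain ⟨N₂, hN₂⟩ := eventually_atTop.1 hev
  refine ⟨max N₁ N₂, fun N hN => ?_⟩
  obtain ⟨hN1, hlogN, h4N, hqN, hεN⟩ := hN₂ N ((le_max_right _ _).trans hN)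
  have hN1R : (1 : ℝ) ≤ N := by exact_mod_cast hN1
  have hN0 : (0 : ℝ) < N := by linarith
  set H : ℕ := ⌊(N : ℝ) ^ κ⌋₊ with hH
  have hHle : (H : ℝ) ≤ (N : ℝ) ^ κ := Nat.floor_le (by positivity)
  have hHgt : (N : ℝ) ^ κ - 1 < H := Nat.sub_one_lt_floor _
  have hW := hN₁ N ((le_max_left _ _).trans hN) H hHle
  have hS0 : (0 : ℝ) ≤ (S N).card := Nat.cast_nonneg _
  set X : ℕ := ⌊(N : ℝ) ^ (κ / 2)⌋₊ with hX
  set Y : ℕ := ⌊(N : ℝ) ^ (τ * κ / 2)⌋₊ with hY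
  have hXle : (X : ℝ) ≤ (N : ℝ) ^ (κ / 2) := Nat.floor_le (by positivity)
  have hYle : (Y : ℝ) ≤ (N : ℝ) ^ (τ * κ / 2) := Nat.floor_le (by positivity)
  have hYgt : (N : ℝ) ^ (τ * κ / 2) < Y + 1 := Nat.lt_floor_add_one _
  have hY4 : 4 ≤ Y := Nat.le_floor (by exact_mod_cast h4N)
  have hYX : Y ≤ X := Nat.floor_le_floor
    (Real.rpow_le_rpow_of_exponent_le hN1R (by nlinarith))
  have hXX : X * X ≤ H := by
    apply Nat.le_floor
    push_cast
    calc (X : ℝ) * X ≤ (N : ℝ) ^ (κ / 2) * (N : ℝ) ^ (κ / 2) :=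
          mul_le_mul hXle hXle (Nat.cast_nonneg _) (by positivity)
      _ = (N : ℝ) ^ κ := by rw [← Real.rpow_add hN0]; congr 1; ring
  have hlN0 : 0 < Real.log N := lt_of_lt_of_le (by
    have := Real.log_pos (by norm_num : (1 : ℝ) < 2)
    positivity) hlogN
  -- the logarithms
  have hlogX : (κ / 4) * Real.log N ≤ Real.log X := by
    have h4κ : (4 : ℝ) ≤ (N : ℝ) ^ (κ / 2) := h4N.trans
      (Real.rpow_le_rpow_of_exponent_le hN1R (by nlinarith))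
    have h1 : (N : ℝ) ^ (κ / 2) / 2 ≤ X := by
      have := Nat.sub_one_lt_floor ((N : ℝ) ^ (κ / 2))
      linarith
    have h2 : Real.log ((N : ℝ) ^ (κ / 2) / 2) ≤ Real.log X :=
      Real.log_le_log (by positivity) h1
    rw [Real.log_div (by positivity) (by norm_num), Real.log_rpow hN0] at h2
    rw [div_le_iff₀ hκ] at hlogN
    linarith
  have hlogY : Real.log Y ≤ (τ * κ / 2) * Real.log N := by
    rw [← Real.log_rpow hN0]
    exact Real.log_le_log (by exact_mod_cast (by omega : 0 < Y)) hYle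
  have hlogY0 : 0 < Real.log Y := Real.log_pos (by exact_mod_cast (by omega : 1 < Y))
  have hlogX0 : 0 < Real.log X := Real.log_pos (by exact_mod_cast (by omega : 1 < X))
  have hll : (8 / ε + |C₁|) / δ ≤ Real.log (Real.log X) - Real.log (Real.log Y) := by
    rw [← hlogτ, ← Real.log_div hlogX0.ne' hlogY0.ne']
    apply Real.log_le_log (by positivity)
    rw [div_le_div_iff₀ (by positivity) hlogY0]
    calc 1 * Real.log Y ≤ (τ * κ / 2) * Real.log N := by linarith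
      _ = (κ / 4 * Real.log N) * (2 * τ) := by ring
      _ ≤ Real.log X * (2 * τ) := mul_le_mul_of_nonneg_right hlogX (by positivity)
  set P : Finset ℕ := (Ioc Y X).filter Nat.Prime with hP
  have hPm : ∀ p ∈ P, Y < p ∧ p ≤ X ∧ p.Prime := fun p hp => by
    rw [hP, Finset.mem_filter, Finset.mem_Ioc] at hp
    exact ⟨hp.1.1, hp.1.2, hp.2⟩
  have hμ : 8 / ε ≤ ∑ p ∈ P, dens (Ω p) := by
    have h1 := hmean Y X (by omega) hYX
    have h2 : ∑ p ∈ P, dens (Ω p) =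
        ∑ p ∈ (Ioc Y X).filter Nat.Prime, ((Ω p).ncard : ℝ) / (p : ℝ) ^ r := by
      refine Finset.sum_congr rfl fun p _ => ?_
      unfold Pool.Agent.N666.TM.dens
      rw [Fintype.card_fin]
    rw [h2]
    refine le_trans ?_ h1
    rw [div_le_iff₀ hδ] at hll
    have := le_abs_self C₁
    linarith
  have hμ0 : 0 < ∑ p ∈ P, dens (Ω p) := lt_of_lt_of_le (by positivity) hμ
  have hT := turan hW P (fun p => p) (fun p hp => (hPm p hp).2.2.pos)
    (fun p hp p' hp' hne => (Nat.coprime_primes (hPm p hp).2.2 (hPm p' hp').2.2).2 hne)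
    (fun p hp p' hp' => by
      have := Nat.mul_le_mul (hPm p hp).2.1 (hPm p' hp').2.1
      omega) Ω _ rfl hμ0
  have hH8 : 8 / ε ≤ H := by linarith
  have hT2 : (((S N).filter fun n => ∀ p ∈ P, red p (x n) ∉ Ω p).card : ℝ) ≤
      ε / 2 * (S N).card := by
    refine hT.trans (mul_le_mul_of_nonneg_right ?_ hS0)
    have h1 : 2 / (∑ p ∈ P, dens (Ω p)) ≤ ε / 4 := by
      rw [div_le_iff₀ hμ0]
      rw [div_le_iff₀ hε] at hμ
      linarith
    have h2 : (4 : ℝ) / (2 * H + 1) ≤ ε / 4 := by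
      rw [div_le_iff₀ hε] at hH8
      rw [div_le_iff₀ (by positivity)]
      nlinarith
    linarith
  -- the zeros of `D`
  have hZ : (((S N).filter fun n => eval (x n) D = 0).card : ℝ) ≤ ε / 4 * (S N).card := by
    have hq2H : q ≤ 2 * H + 1 := by
      have : (q : ℝ) ≤ H := by linarith
      have : q ≤ H := by exact_mod_cast this
      omega
    have h1 := (abs_le.1 (SA_ind hW q hqp.one_lt.le hq2H {ρ : Fin r → ZMod q | aeval ρ D = 0})).2
    have hd0 := dens_nonneg {ρ : Fin r → ZMod q | aeval ρ D = 0}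
    have hη : (1 : ℝ) / (2 * H + 1) ≤ 1 := by
      rw [div_le_one (by positivity)]
      have : (0 : ℝ) ≤ H := Nat.cast_nonneg _
      linarith
    have h2 : SA (S N) x (fun c => ind {ρ : Fin r → ZMod q | aeval ρ D = 0} (red q c)) ≤ ε / 4 := by
      nlinarith
    have hc : (0 : ℝ) < (S N).card := by exact_mod_cast hW.pos
    unfold SA at h2
    rw [div_le_iff₀ hc] at h2
    refine le_trans ?_ h2
    rw [Finset.card_filter]
    push_cast
    refine Finset.sum_le_sum fun n _ => ?_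
    split_ifs with h0
    · unfold ind
      rw [if_pos]
      change aeval (fun i => (x n i : ZMod q)) D = 0
      rw [eval_red, h0, Int.cast_zero]
    · exact ind_nonneg _ _
  -- the exceptions
  have hsub : {n : ℕ | n ∈ S N ∧ ¬ (eval (x n) D ≠ 0 ∧ ∃ p : ℕ, p.Prime ∧
      (N : ℝ) ^ (τ * κ / 2) ≤ p ∧ red p (x n) ∈ Ω p)} ⊆
      ↑(((S N).filter fun n => ∀ p ∈ P, red p (x n) ∉ Ω p) ∪
        (S N).filter fun n => eval (x n) D = 0) := by
    rintro n ⟨hn, hbad⟩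
    rw [Finset.coe_union]
    by_contra hcon
    rw [Set.mem_union, not_or] at hcon
    obtain ⟨hc1, hc2⟩ := hcon
    rw [Finset.mem_coe, Finset.mem_filter, not_and] at hc1 hc2
    have hc1' := hc1 hn
    have hc2' := hc2 hn
    push Not at hc1'
    obtain ⟨p, hpP, hpZ⟩ := hc1'
    obtain ⟨hp1, hp2, hp3⟩ := hPm p hpP
    refine hbad ⟨hc2', p, hp3, ?_, hpZ⟩
    have : ((Y + 1 : ℕ) : ℝ) ≤ p := by exact_mod_cast hp1
    push_cast at this
    linarith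
  have h1 : ({n : ℕ | n ∈ S N ∧ ¬ (eval (x n) D ≠ 0 ∧ ∃ p : ℕ, p.Prime ∧
      (N : ℝ) ^ (τ * κ / 2) ≤ p ∧ red p (x n) ∈ Ω p)}.ncard : ℝ) ≤
      ((((S N).filter fun n => ∀ p ∈ P, red p (x n) ∉ Ω p) ∪
        (S N).filter fun n => eval (x n) D = 0).card : ℝ) := by
    have := Set.ncard_le_ncard hsub (Finset.finite_toSet _)
    rw [Set.ncard_coe_finset] at this
    exact_mod_cast this
  refine h1.trans ?_
  have h2 : ((((S N).filter fun n => ∀ p ∈ P, red p (x n) ∉ Ω p) ∪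
        (S N).filter fun n => eval (x n) D = 0).card : ℝ) ≤
      (((S N).filter fun n => ∀ p ∈ P, red p (x n) ∉ Ω p).card : ℝ) +
        ((S N).filter fun n => eval (x n) D = 0).card := by
    exact_mod_cast Finset.card_union_le _ _
  refine h2.trans ?_
  nlinarith

/-- the values at the members of a well distributed sequence of polynomial growth -/
theorem core {r : ℕ} {A D : MvPolynomial (Fin r) ℤ} (hD : D ≠ 0) (hM : MeanPoles A D)
    {S : ℕ → Finset ℕ} {x : ℕ → Fin r → ℤ} {κ : ℝ} (hκ : 0 < κ)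
    (hw : ∃ N₀ : ℕ, ∀ N : ℕ, N₀ ≤ N → ∀ H : ℕ, (H : ℝ) ≤ (N : ℝ) ^ κ → Well (S N) x H)
    {C : ℝ} {m : ℕ} (hC : 1 ≤ C) (hgr : ∀ N : ℕ, 1 ≤ N → ∀ n ∈ S N,
      |((eval (x n) A : ℤ) : ℝ)| ≤ C * (N : ℝ) ^ m ∧ |((eval (x n) D : ℤ) : ℝ)| ≤ C * (N : ℝ) ^ m)
    (ε : ℝ) (hε : 0 < ε) : ∃ σ : ℝ, 0 ≤ σ ∧ ∃ N₀ : ℕ, ∀ N : ℕ, N₀ ≤ N →
      ({n : ℕ | n ∈ S N ∧ ¬ Big σ (eval (x n) A) (eval (x n) D)}.ncard : ℝ) ≤ ε * (S N).card := by
  obtain ⟨θ, hθ, N₁, h1⟩ := core0 hD (Ω := ZP A D) hM hκ hw ε hε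
  refine ⟨2 * (1 + m) / θ, by positivity, max N₁ (⌈C⌉₊ + 1), fun N hN => ?_⟩
  have hN1 : 1 ≤ N := by
    have := (le_max_right N₁ (⌈C⌉₊ + 1)).trans hN
    omega
  have hN1R : (1 : ℝ) ≤ N := by exact_mod_cast hN1
  have hN0 : (0 : ℝ) < N := by linarith
  have hCN : C ≤ N := (Nat.le_ceil C).trans (by
    have := (le_max_right N₁ (⌈C⌉₊ + 1)).trans hN
    exact_mod_cast (by omega : ⌈C⌉₊ ≤ N))
  refine le_trans ?_ (h1 N ((le_max_left _ _).trans hN))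
  have hsub : {n : ℕ | n ∈ S N ∧ ¬ Big (2 * (1 + m) / θ) (eval (x n) A) (eval (x n) D)} ⊆
      {n : ℕ | n ∈ S N ∧ ¬ (eval (x n) D ≠ 0 ∧ ∃ p : ℕ, p.Prime ∧ (N : ℝ) ^ θ ≤ p ∧
        red p (x n) ∈ ZP A D p)} := by
    rintro n ⟨hn, hbad⟩
    refine ⟨hn, ?_⟩
    rintro ⟨hc2, p, hp3, hpN, hpZ⟩
    have hpZ' : aeval (fun i => (x n i : ZMod p)) D = 0 ∧ aeval (fun i => (x n i : ZMod p)) A ≠ 0 := hpZ
    rw [eval_red, eval_red, ZMod.intCast_zmod_eq_zero_iff_dvd, Ne,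
      ZMod.intCast_zmod_eq_zero_iff_dvd] at hpZ'
    apply hbad
    obtain ⟨hgA, hgD⟩ := hgr N hN1 n hn
    refine ⟨hc2, p, hp3, hpZ'.1, hpZ'.2, C * (N : ℝ) ^ m, ?_, hgA, hgD, ?_⟩
    · exact one_le_mul_of_one_le_of_one_le hC (one_le_pow₀ hN1R)
    · have h1 : Real.log (C * (N : ℝ) ^ m) ≤ (1 + m) * Real.log N := by
        rw [Real.log_mul (by positivity) (by positivity), Real.log_pow]
        have := Real.log_le_log (by linarith) hCN
        linarith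
      have h2 : θ * Real.log N ≤ Real.log p := by
        rw [← Real.log_rpow hN0]
        exact Real.log_le_log (by positivity) hpN
      calc 2 * Real.log (C * (N : ℝ) ^ m) ≤ 2 * ((1 + m) * Real.log N) := by linarith
        _ = 2 * (1 + m) / θ * (θ * Real.log N) := by field_simp
        _ ≤ 2 * (1 + m) / θ * Real.log p := mul_le_mul_of_nonneg_left h2 (by positivity)
  exact_mod_cast Set.ncard_le_ncard hsub ((Finset.finite_toSet (S N)).subset fun n hn => hn.1)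

/-- a criterion for the mean -/
theorem mean_of {r : ℕ} {Ω : ∀ p : ℕ, Set (Fin r → ZMod p)} {δ : ℝ} (hδ : 0 < δ) (p₀ : ℕ)
    (h : ∀ p : ℕ, p.Prime → p₀ < p → δ * (1 / (p : ℝ)) ≤ ((Ω p).ncard : ℝ) / (p : ℝ) ^ r) :
    MeanSet Ω := by
  classical
  obtain ⟨C, hC⟩ := Pool.Agent.Erdos456.Mert.mertens_inv
  refine ⟨δ, δ * (2 * C + p₀), hδ, fun y x hy hyx => ?_⟩
  have h1 : ∑ p ∈ (Ioc y x).filter Nat.Prime, (δ * (1 / (p : ℝ)) - if p ≤ p₀ then δ else 0) ≤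
      ∑ p ∈ (Ioc y x).filter Nat.Prime, ((Ω p).ncard : ℝ) / (p : ℝ) ^ r := by
    refine Finset.sum_le_sum fun p hp => ?_
    rw [Finset.mem_filter, Finset.mem_Ioc] at hp
    have hp1 : (1 : ℝ) ≤ p := by exact_mod_cast (by omega : 1 ≤ p)
    split_ifs with hpp
    · have h2 : δ * (1 / (p : ℝ)) ≤ δ := by
        have : 1 / (p : ℝ) ≤ 1 := by rw [div_le_one (by linarith)]; exact hp1
        nlinarith
      have h3 : 0 ≤ ((Ω p).ncard : ℝ) / (p : ℝ) ^ r := by positivity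
      linarith
    · rw [sub_zero]
      exact h p hp.2 (by omega)
  refine le_trans ?_ h1
  rw [Finset.sum_sub_distrib]
  have h2 : ∑ p ∈ (Ioc y x).filter Nat.Prime, (if p ≤ p₀ then δ else 0) ≤ δ * p₀ := by
    rw [← Finset.sum_filter, Finset.sum_const, nsmul_eq_mul, mul_comm]
    refine mul_le_mul_of_nonneg_left ?_ hδ.le
    have h3 : (((Ioc y x).filter Nat.Prime).filter fun p => p ≤ p₀) ⊆ Icc 1 p₀ := by
      intro p hp
      rw [Finset.mem_filter, Finset.mem_filter, Finset.mem_Ioc] at hp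
      rw [Finset.mem_Icc]
      omega
    have h4 := Finset.card_le_card h3
    rw [Nat.card_Icc] at h4
    exact_mod_cast (by omega : (((Ioc y x).filter Nat.Prime).filter fun p => p ≤ p₀).card ≤ p₀)
  have hsplit : ∑ p ∈ (Icc 1 x).filter Nat.Prime, (1 : ℝ) / p =
      ∑ p ∈ (Icc 1 y).filter Nat.Prime, (1 : ℝ) / p +
      ∑ p ∈ (Ioc y x).filter Nat.Prime, (1 : ℝ) / p := by
    rw [← Finset.sum_union]
    · congr 1
      ext p
      simp only [Finset.mem_filter, Finset.mem_Icc, Finset.mem_Ioc, Finset.mem_union]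
      constructor
      · rintro ⟨⟨h1, h2⟩, h3⟩
        rcases le_or_gt p y with h4 | h4
        · exact Or.inl ⟨⟨h1, h4⟩, h3⟩
        · exact Or.inr ⟨⟨h4, h2⟩, h3⟩
      · rintro (⟨⟨h1, h2⟩, h3⟩ | ⟨⟨h1, h2⟩, h3⟩)
        · exact ⟨⟨h1, by omega⟩, h3⟩
        · exact ⟨⟨by omega, h2⟩, h3⟩
    · rw [Finset.disjoint_left]
      intro p hp hp'
      rw [Finset.mem_filter, Finset.mem_Icc] at hp
      rw [Finset.mem_filter, Finset.mem_Ioc] at hp'
      omega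
  have hx := (abs_le.1 (hC x (by omega))).1
  have hy' := (abs_le.1 (hC y hy)).2
  rw [← Finset.mul_sum]
  have h5 : Real.log (Real.log x) - Real.log (Real.log y) - 2 * C ≤
      ∑ p ∈ (Ioc y x).filter Nat.Prime, (1 : ℝ) / p := by linarith
  have h6 := mul_le_mul_of_nonneg_left h5 hδ.le
  linarith

/-- the invariant `6912 a³ / (4 a³ + 27 b²)` of `y² = x³ + a x + b` -/
theorem mean_wei : MeanPoles (C 6912 * X 0 ^ 3 : MvPolynomial (Fin 2) ℤ)
    (C 4 * X 0 ^ 3 + C 27 * X 1 ^ 2) := by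
  refine mean_of (Ω := ZP (C 6912 * X 0 ^ 3 : MvPolynomial (Fin 2) ℤ)
    (C 4 * X 0 ^ 3 + C 27 * X 1 ^ 2)) (δ := 1 / 2) (by norm_num) 3 fun p hp h3 => ?_
  have h5 : 5 ≤ p := by
    by_contra hcon
    have h4 : p = 4 := by omega
    rw [h4] at hp
    exact absurd hp (by norm_num)
  have h1 := wei hp h5
  have h2 : ((p : ℝ) - 1) ≤ ((ZP (C 6912 * X 0 ^ 3 : MvPolynomial (Fin 2) ℤ)
      (C 4 * X 0 ^ 3 + C 27 * X 1 ^ 2) p).ncard : ℝ) := by
    have h4 : p ≤ (ZP (C 6912 * X 0 ^ 3 : MvPolynomial (Fin 2) ℤ)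
      (C 4 * X 0 ^ 3 + C 27 * X 1 ^ 2) p).ncard + 1 := by
      unfold ZP
      omega
    have : (p : ℝ) ≤ ((ZP (C 6912 * X 0 ^ 3 : MvPolynomial (Fin 2) ℤ)
      (C 4 * X 0 ^ 3 + C 27 * X 1 ^ 2) p).ncard : ℝ) + 1 := by exact_mod_cast h4
    linarith
  have hp5 : (5 : ℝ) ≤ p := by exact_mod_cast h5
  have e : (1 : ℝ) / 2 * (1 / p) = (p / 2) / (p : ℝ) ^ 2 := by field_simp
  rw [e]
  gcongr
  linarith

end Run7.h795.RV
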