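import Pool.Agent.Run7.h795.RV.Res
import Pool.Agent.Run7.h823.WF.D

/-!
Properties which are rare along the families of vectors of residues with small Fourier coefficients, and a criterion.
(The theorem `crit` is a copy of `Pool.Agent.N666.TM.crit` of helper666, with fewer imports.)
-/

set_option autoImplicit false
set_option linter.unusedSectionVars false

namespace Run7.h795.RV

open Finset Filter
open Pool.Agent.Y722.HS (red)
open Pool.Agent.N666.TM (Well dens turan)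
open Pool.Agent.Run7.h823.WF (Flat transferD)

/-- `Q` holds for at most `ε |s|` of the members of all families of vectors of residues modulo `q ≥ q₀(ε)` with Fourier
coefficients at most `q ^ (-β) |s|` -/
def Rare {ι : Type} [Fintype ι] (β : ℝ) (Q : (ι → ℤ) → Prop) : Prop :=
  ∀ ε : ℝ, 0 < ε → ∃ q₀ : ℕ, ∀ (τ : Type) (q : ℕ) [NeZero q], q₀ ≤ q → ∀ (s : Finset τ) (y : τ → ι → ZMod q)
    (c₀ : ι → ℤ), Flat q ((q : ℝ) ^ (-β)) s y →
    ({i : τ | i ∈ s ∧ Q (fun j => c₀ j + ((y i j).val : ℕ))}.ncard : ℝ) ≤ ε * s.card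

section
variable {ι : Type} [Fintype ι] {β : ℝ}

theorem Rare.mono {Q Q' : (ι → ℤ) → Prop} (h : Rare β Q) (hs : ∀ v, Q' v → Q v) : Rare β Q' := by
  intro ε hε
  obtain ⟨q₀, h0⟩ := h ε hε
  exact ⟨q₀, fun τ q _ hq s y c₀ hf => (ncard_mono fun i _ hi => hs _ hi).trans (h0 τ q hq s y c₀ hf)⟩

theorem Rare.or {Q Q' : (ι → ℤ) → Prop} (h : Rare β Q) (h' : Rare β Q') : Rare β (fun v => Q v ∨ Q' v) := by
  intro ε hε
  obtain ⟨q₁, h1⟩ := h (ε / 2) (by positivity)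
  obtain ⟨q₂, h2⟩ := h' (ε / 2) (by positivity)
  refine ⟨q₁ + q₂, fun τ q _ hq s y c₀ hf => ?_⟩
  have a1 := h1 τ q (by omega) s y c₀ hf
  have a2 := h2 τ q (by omega) s y c₀ hf
  have hfin : ∀ R : τ → Prop, {i : τ | i ∈ s ∧ R i}.Finite := fun R =>
    (Finset.finite_toSet s).subset fun k hk => hk.1
  have hsub : {i : τ | i ∈ s ∧ (Q (fun j => c₀ j + ((y i j).val : ℕ)) ∨ Q' (fun j => c₀ j + ((y i j).val : ℕ)))} ⊆
      {i : τ | i ∈ s ∧ Q (fun j => c₀ j + ((y i j).val : ℕ))} ∪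
      {i : τ | i ∈ s ∧ Q' (fun j => c₀ j + ((y i j).val : ℕ))} := by
    rintro i ⟨hi, hq | hq⟩
    · exact Or.inl ⟨hi, hq⟩
    · exact Or.inr ⟨hi, hq⟩
  have h3 := (Set.ncard_le_ncard hsub ((hfin _).union (hfin _))).trans (Set.ncard_union_le _ _)
  have h4 : ({i : τ | i ∈ s ∧ (Q (fun j => c₀ j + ((y i j).val : ℕ)) ∨
        Q' (fun j => c₀ j + ((y i j).val : ℕ)))}.ncard : ℝ) ≤
      ({i : τ | i ∈ s ∧ Q (fun j => c₀ j + ((y i j).val : ℕ))}.ncard : ℝ) +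
      ({i : τ | i ∈ s ∧ Q' (fun j => c₀ j + ((y i j).val : ℕ))}.ncard : ℝ) := by exact_mod_cast h3
  linarith

theorem rare_false : Rare β (fun _ : ι → ℤ => False) := by
  intro ε hε
  refine ⟨0, fun τ q _ hq s y c₀ hf => ?_⟩
  simp only [and_false, Set.ofPred_false, Set.ncard_empty, Nat.cast_zero]
  positivity

theorem rare_exists {α : Type} (T : Finset α) (Q : α → (ι → ℤ) → Prop) (h : ∀ a ∈ T, Rare β (Q a)) :
    Rare β (fun v => ∃ a ∈ T, Q a v) := by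
  classical
  induction T using Finset.induction_on with
  | empty => exact rare_false.mono fun v hv => by simp at hv
  | insert a T ha ih =>
    refine ((h a (Finset.mem_insert_self _ _)).or (ih fun b hb => h b (Finset.mem_insert_of_mem hb))).mono ?_
    rintro v ⟨b, hb, hv⟩
    rcases Finset.mem_insert.1 hb with rfl | hb
    · exact Or.inl hv
    · exact Or.inr ⟨b, hb, hv⟩

theorem rare_iUnion {α : Type} [Finite α] (Q : α → (ι → ℤ) → Prop) (h : ∀ a, Rare β (Q a)) :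
    Rare β (fun v => ∃ a, Q a v) := by
  classical
  have := Fintype.ofFinite α
  exact (rare_exists Finset.univ Q fun a _ => h a).mono fun v ⟨a, ha⟩ => ⟨a, Finset.mem_univ a, ha⟩

/-- what is rare in well distributed sequences -/
theorem rare_of_well [DecidableEq ι] (hβ : 0 < β) (Q : (ι → ℤ) → Prop)
    (h : ∀ (S : ℕ → Finset ℕ) (x : ℕ → ι → ℤ) (κ : ℝ), 0 < κ →
      (∃ N₀ : ℕ, ∀ N : ℕ, N₀ ≤ N → ∀ H : ℕ, (H : ℝ) ≤ (N : ℝ) ^ κ → Well (S N) x H) → ∀ ε : ℝ, 0 < ε →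
      ∃ N₀ : ℕ, ∀ N : ℕ, N₀ ≤ N → ({n : ℕ | n ∈ S N ∧ Q (x n)}.ncard : ℝ) ≤ ε * (S N).card) : Rare β Q := by
  intro ε hε
  obtain ⟨q₀, h0⟩ := transferD (ι := ι) hβ (fun _ v => ¬ Q v) (fun _ _ => True) (fun _ _ _ => trivial)
    (fun S x κ hκ hw _ ε hε => by
      obtain ⟨N₀, h1⟩ := h S x κ hκ hw ε hε
      refine ⟨N₀, fun N hN => (ncard_mono fun n _ hn => ?_).trans (h1 N hN)⟩
      exact not_not.1 hn) ε hε
  refine ⟨q₀, fun τ q _ hq s y c₀ hf => (ncard_mono fun n _ hn => ?_).trans (h0 τ q hq s y c₀ hf fun _ _ => trivial)⟩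
  exact not_not.2 hn

end

section
variable {ι : Type} [Fintype ι] [DecidableEq ι]

open Classical in
theorem crit {S : ℕ → Finset ℕ} {x : ℕ → ι → ℤ} {κ : ℝ} (hκ : 0 < κ)
    (hw : ∃ N₀ : ℕ, ∀ N : ℕ, N₀ ≤ N → ∀ H : ℕ, (H : ℝ) ≤ (N : ℝ) ^ κ → Well (S N) x H)
    (Q : ℕ → ℕ) (hQ1 : ∀ p, p.Prime → 1 ≤ Q p)
    (hQc : ∀ p p', p.Prime → p'.Prime → p ≠ p' → (Q p).Coprime (Q p'))
    (Ω : ∀ p : ℕ, Set (ι → ZMod (Q p))) (T₀ : ℕ) (w : ℕ → ℝ) (hw0 : ∀ p, 0 ≤ w p)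
    (hdiv : ¬ Summable (fun p : ℕ => if p.Prime then w p else 0))
    (hΩ : ∀ p, p.Prime → T₀ < p → w p ≤ dens (Ω p)) (ε : ℝ) (hε : 0 < ε) :
    ∃ T' N₀ : ℕ, ∀ N : ℕ, N₀ ≤ N →
      (((S N).filter fun n => ∀ p, p.Prime → T₀ < p → p ≤ T' → red (Q p) (x n) ∉ Ω p).card : ℝ) ≤
        ε * (S N).card := by
  obtain ⟨N₁, hN₁⟩ := hw
  obtain ⟨y, hy⟩ : ∃ y : ℕ, 4 / ε ≤ ∑ p ∈ (Finset.range y).filter Nat.Prime,
      (if T₀ < p then w p else 0) := by
    have hns : ¬ Summable (fun p : ℕ => if p.Prime then (if T₀ < p then w p else 0) else 0) := by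
      intro hsum
      apply hdiv
      refine (summable_congr_cofinite ?_).mp hsum
      rw [Filter.eventuallyEq_iff_exists_mem]
      refine ⟨{p | T₀ < p}, ?_, ?_⟩
      · rw [Nat.cofinite_eq_atTop]
        exact Ioi_mem_atTop T₀
      · intro p hp
        have hp' : T₀ < p := hp
        simp [hp']
    have hnn : ∀ p : ℕ, 0 ≤ (if p.Prime then (if T₀ < p then w p else 0) else 0) := by
      intro p
      have := hw0 p
      split_ifs <;> first | exact this | exact le_rfl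
    have ht := (not_summable_iff_tendsto_nat_atTop_of_nonneg hnn).mp hns
    obtain ⟨y, hy⟩ := (ht.eventually_ge_atTop (4 / ε)).exists
    refine ⟨y, ?_⟩
    rw [Finset.sum_filter]
    exact hy
  set P : Finset ℕ := ((Finset.range y).filter Nat.Prime).filter (fun p => T₀ < p) with hP
  have hPsum : 4 / ε ≤ ∑ p ∈ P, w p := by
    rw [hP, Finset.sum_filter]
    exact hy
  have hPm : ∀ p ∈ P, p < y ∧ p.Prime ∧ T₀ < p := by
    intro p hp
    simp only [hP, Finset.mem_filter, Finset.mem_range] at hp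
    exact ⟨hp.1.1, hp.1.2, hp.2⟩
  set H : ℕ := (∑ p ∈ P, Q p) * (∑ p ∈ P, Q p) + ⌈8 / ε⌉₊ with hH
  have hev : ∀ᶠ N : ℕ in atTop, (H : ℝ) ≤ (N : ℝ) ^ κ := by
    have h1 : Tendsto (fun N : ℕ => (N : ℝ) ^ κ) atTop atTop :=
      (tendsto_rpow_atTop hκ).comp tendsto_natCast_atTop_atTop
    exact h1.eventually_ge_atTop _
  obtain ⟨N₂, hN₂⟩ := eventually_atTop.mp hev
  refine ⟨y, max N₁ N₂, fun N hN => ?_⟩
  have hws := hN₁ N ((le_max_left _ _).trans hN) H (hN₂ N ((le_max_right _ _).trans hN))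
  have hμ : 4 / ε ≤ ∑ p ∈ P, dens (Ω p) :=
    hPsum.trans (Finset.sum_le_sum fun p hp => hΩ p (hPm p hp).2.1 (hPm p hp).2.2)
  have hμ0 : 0 < ∑ p ∈ P, dens (Ω p) := lt_of_lt_of_le (by positivity) hμ
  have h1 := turan hws P Q (fun p hp => hQ1 p (hPm p hp).2.1)
    (fun p hp p' hp' hne => hQc p p' (hPm p hp).2.1 (hPm p' hp').2.1 hne)
    (fun p hp p' hp' => by
      have a1 : Q p ≤ ∑ p ∈ P, Q p := Finset.single_le_sum (fun _ _ => Nat.zero_le _) hp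
      have a2 : Q p' ≤ ∑ p ∈ P, Q p := Finset.single_le_sum (fun _ _ => Nat.zero_le _) hp'
      have a3 := Nat.mul_le_mul a1 a2
      omega) Ω _ rfl hμ0
  have h2 : 2 / (∑ p ∈ P, dens (Ω p)) ≤ ε / 2 := by
    rw [div_le_iff₀ hμ0]
    have : 4 / ε * (ε / 2) = 2 := by field_simp; norm_num
    nlinarith
  have h3 : 4 / (2 * (H : ℝ) + 1) ≤ ε / 2 := by
    have a1 : 8 / ε ≤ H := by
      have b1 := Nat.le_ceil (8 / ε)
      have b2 : ((⌈8 / ε⌉₊ : ℕ) : ℝ) ≤ (H : ℝ) := by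
        rw [hH]
        exact_mod_cast Nat.le_add_left _ _
      exact b1.trans b2
    rw [div_le_iff₀ (by positivity)]
    have : 8 / ε * (ε / 2) = 4 := by field_simp; norm_num
    nlinarith
  have h4 : (((S N).filter fun n => ∀ p, p.Prime → T₀ < p → p ≤ y →
      red (Q p) (x n) ∉ Ω p).card : ℝ) ≤
      (((S N).filter fun n => ∀ p ∈ P, red (Q p) (x n) ∉ Ω p).card : ℝ) := by
    refine Nat.cast_le.2 (Finset.card_le_card fun n hn => ?_)
    rw [Finset.mem_filter] at hn ⊢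
    exact ⟨hn.1, fun p hp => hn.2 p (hPm p hp).2.1 (hPm p hp).2.2 (hPm p hp).1.le⟩
  refine (h4.trans h1).trans ?_
  have : (0 : ℝ) ≤ (S N).card := Nat.cast_nonneg _
  refine mul_le_mul_of_nonneg_right ?_ this
  linarith

end

end Run7.h795.RV
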