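import Pool.Agent.Run7.h795.RV.Rare
import Pool.Agent.R431.SG.DensG

/-!
# Sparse families of tuples of algebraic integers: the density principle

(After `Pool.Agent.N323.TH.Dens` of helper323; the local analysis is that of `Pool.Agent.R431.SG`.)
-/

set_option autoImplicit false
set_option linter.all false

open scoped Classical

namespace Run7.h795.RV.Sel

open Polynomial NumberField Pool.Agent.R431.SG
open Pool.Agent.N666.TM (Well dens dens_nonneg)
open Run7.h795.RV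

section density

variable {k : Type} [Field k] [NumberField k] {J : Type} [Fintype J] (B : Module.Basis J ℤ (𝓞 k))
  {I : Type} [Fintype I]

/-- the vector of algebraic integers with given coordinates -/
noncomputable def cv (y : I × J → ℤ) (i : I) : 𝓞 k := ∑ j, y (i, j) • B j

lemma repr_cv (y : I × J → ℤ) (i : I) (j : J) : B.repr (cv B y i) j = y (i, j) := by
  unfold cv
  rw [B.repr_sum_self]

/-- the members without an obstruction are rare -/
theorem dens_rare {β : ℝ} (hβ : 0 < β)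
    {k' : Type} [Field k'] [NumberField k'] (ι : 𝓞 k →+* 𝓞 k') {δ : ℝ}
    (hδ0 : 0 < δ) (p0 : ℕ)
    (Obs : ∀ (p : ℕ) [Fact p.Prime], (𝓞 k' →+* ℤ_[p]) → Set (I → ZMod p))
    (hc : ∀ (p : ℕ) [Fact p.Prime] (σ : 𝓞 k' →+* ℤ_[p]), p0 ≤ p →
      δ * (p : ℝ) ^ Fintype.card I ≤ ((Obs p σ).ncard : ℝ)) :
    Rare β (fun v : I × J → ℤ => NoObs ι p0 Obs (cv B v)) := by
  refine rare_of_well hβ _ fun S x κ hκ hw ε hε => ?_
  set good : ℕ → Prop := fun p => p0 ≤ p ∧ ∃ h : Fact p.Prime, Nonempty (𝓞 k' →+* ℤ_[p])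
    with hgood
  let Ω : (p : ℕ) → Set (I × J → ZMod p) := fun p =>
    {y | ∃ (h : Fact p.Prime) (σ : 𝓞 k' →+* ℤ_[p]), rd B (σ.comp ι) I y ∈ Obs p σ}
  have hΩ : ∀ p, good p → δ ≤ dens (Ω p) := by
    intro p hp
    obtain ⟨h1, h2, ⟨σ⟩⟩ := hp
    have h3 := hc p σ h1
    have h4 := proportion (rd B (σ.comp ι) I) (rd_surj B (σ.comp ι)) (Obs p σ) (δ := δ)
      (Ω := Ω p) (by
      rw [Fintype.card_fun, ZMod.card, Nat.cast_pow]
      exact h3) (fun x hx => ⟨h2, σ, hx⟩)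
    rw [Fintype.card_fun, ZMod.card, Nat.cast_pow] at h4
    have hp0 : (0 : ℝ) < p := by exact_mod_cast h2.out.pos
    unfold Pool.Agent.N666.TM.dens
    rw [le_div_iff₀ (by positivity)]
    exact h4
  have hdiv : ¬ Summable (fun p : ℕ => if p.Prime then (if good p then δ else 0) else 0) := by
    intro hs
    have h1 := hs.tendsto_atTop_zero
    obtain ⟨M, hM⟩ := Filter.eventually_atTop.1 (h1.eventually_lt_const hδ0)
    obtain ⟨p, hp, h2, h3⟩ := exists_emb k' (M + p0)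
    have h4 := hM p (by omega)
    have h5 : good p := ⟨by omega, hp, h3⟩
    rw [if_pos hp.out, if_pos h5] at h4
    exact lt_irrefl _ h4
  obtain ⟨T', N₀, h⟩ := crit hκ hw (fun p => p) (fun p hp => hp.one_lt.le)
    (fun p p' hp hp' hne => (Nat.coprime_primes hp hp').2 hne) Ω p0
    (fun p => if good p then δ else 0) (fun p => by
      show 0 ≤ (if good p then δ else 0)
      split_ifs <;> linarith) hdiv (by
      intro p hp hlt
      show (if good p then δ else 0) ≤ _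
      split_ifs with hg
      · exact hΩ p hg
      · exact dens_nonneg _) ε hε
  refine ⟨N₀, fun N hN => le_trans ?_ (h N hN)⟩
  have h1 : {t : ℕ | t ∈ S N ∧ NoObs ι p0 Obs (cv B (x t))}.ncard ≤
      ((S N).filter fun n => ∀ p, p.Prime → p0 < p → p ≤ T' →
        Pool.Agent.Y722.HS.red p (x n) ∉ Ω p).card := by
    rw [← Set.ncard_coe_finset]
    refine Set.ncard_le_ncard ?_ (Finset.finite_toSet _)
    rintro t ⟨ht, hno⟩
    rw [Finset.mem_coe, Finset.mem_filter]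
    refine ⟨ht, fun p hp hlt _ => ?_⟩
    rintro ⟨h2, σ, hσ⟩
    have h5 := rd_int B (σ.comp ι) (cv B (x t))
    have h6 : (fun q : I × J => ((B.repr (cv B (x t) q.1) q.2 : ℤ) : ZMod p)) =
        Pool.Agent.Y722.HS.red p (x t) := by
      funext q
      rw [repr_cv]
      rfl
    rw [h6] at h5
    rw [h5] at hσ
    exact hno p σ hlt.le hσ
  exact_mod_cast h1

end density

section bad

variable {k : Type} [Field k] [NumberField k] {r : ℕ} (B : Module.Basis (Fin r) ℤ (𝓞 k))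

/-- no obstruction -/
def BadV (f : (𝓞 k)[X]) {I : Type} (Ob : ∀ (p : ℕ) [Fact p.Prime], (ZMod p)[X] → Set (I → ZMod p))
    (v : I × Fin r → ℤ) : Prop :=
  ∀ (p : ℕ) [Fact p.Prime] (σ : 𝓞 k →+* ℤ_[p]), (fun i => red σ (cv B v i)) ∉ Ob p (f.map (red σ))

theorem bad_rare {β : ℝ} (hβ : 0 < β) (f : (𝓞 k)[X]) {I : Type} [Fintype I]
    {k' : Type} [Field k'] [NumberField k'] (ι : 𝓞 k →+* 𝓞 k') {δ : ℝ} (hδ0 : 0 < δ) (p0 : ℕ)
    (Ob : ∀ (p : ℕ) [Fact p.Prime], (ZMod p)[X] → Set (I → ZMod p))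
    (hob : ∀ (p : ℕ) [Fact p.Prime] (σ : 𝓞 k' →+* ℤ_[p]), p0 ≤ p →
      δ * (p : ℝ) ^ Fintype.card I ≤ ((Ob p (f.map (red (σ.comp ι)))).ncard : ℝ)) :
    Rare β (BadV B f Ob) := by
  refine (dens_rare B hβ ι hδ0 p0 (fun p _ σ => Ob p (f.map (red (σ.comp ι)))) hob).mono ?_
  intro m hm p _ σ hp
  exact hm p (σ.comp ι)

theorem bad_rare' {β : ℝ} (hβ : 0 < β) {I : Type} [Fintype I] {δ : ℝ} (hδ0 : 0 < δ) (p0 : ℕ)
    (Ob : ∀ (p : ℕ) [Fact p.Prime], (ZMod p)[X] → Set (I → ZMod p))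
    (hob : ∀ (p : ℕ) [Fact p.Prime] (σ : 𝓞 k →+* ℤ_[p]), p0 ≤ p →
      δ * (p : ℝ) ^ Fintype.card I ≤ ((Ob p 0).ncard : ℝ)) :
    Rare β (BadV B 0 Ob) := by
  refine bad_rare B hβ 0 (RingHom.id (𝓞 k)) hδ0 p0 Ob ?_
  intro p _ σ hp
  rw [Polynomial.map_zero]
  exact hob p σ hp

end bad

end Run7.h795.RV.Sel
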